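import Pool.Agent.H64.FB.Targets
import Pool.Agent.H59.Connect

/-! # Block F, module CVL: lifting a homotopy of the base to the universal cover -/

open Topology Set
open Pool.Agent.H59 Pool.Agent.H64.LB Pool.Agent.H93.FB Pool.Agent.H64.FB
open scoped unitInterval ContinuousMap Topology.Homotopy

namespace Pool.Agent.H89.FB

variable {Y : Type} [TopologicalSpace Y] {y₀ : Y}

/-- tracks and paths commute -/
theorem trk_comm (h : C(Y × I, Y)) (h0 : ∀ y, h (y, 0) = y) (h1 : ∀ y, h (y, 1) = y)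
    {a b : Y} (q : Path a b) :
    (Path.Homotopic.Quotient.mk q).trans (Path.Homotopic.Quotient.mk (trk h h0 h1 b)) =
      (Path.Homotopic.Quotient.mk (trk h h0 h1 a)).trans (Path.Homotopic.Quotient.mk q) := by
  have := square (X := Y) (h.comp ⟨fun x : I × I => (q x.1, x.2), by fun_prop⟩)
    q (trk h h0 h1 b) (trk h h0 h1 a) q
    (fun t => (h0 (q t)).symm)
    (fun t => by
      change h (b, t) = h (q 1, t)
      rw [q.target])
    (fun t => by
      change h (a, t) = h (q 0, t)
      rw [q.source])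
    (fun t => (h1 (q t)).symm)
  rw [Path.Homotopic.Quotient.mk_trans, Path.Homotopic.Quotient.mk_trans] at this
  exact this

/-- the end of the transport along the homotopy -/
theorem end_key (h : C(Y × I, Y)) (h0 : ∀ y, h (y, 0) = y) (h1 : ∀ y, h (y, 1) = y)
    (x X z : BT y₀) (p : Path x.1 z.1) (hx : x = X)
    (hz : z.2 = x.2.trans (Path.Homotopic.Quotient.mk p)) (hp : ∀ t, p t = h (X.1, t)) :
    z = BT.act (Path.Homotopic.Quotient.mk (trk h h0 h1 y₀)) X := by
  subst hx
  obtain ⟨y, c⟩ := x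
  obtain ⟨z1, z2⟩ := z
  have e : z1 = y := by
    have h2 : p 1 = h (y, 1) := hp 1
    rw [h1] at h2
    exact p.target.symm.trans h2
  subst e
  have hpq : p = trk h h0 h1 z1 := by
    ext t
    exact hp t
  subst hpq
  change z2 = c.trans _ at hz
  rw [hz]
  change (⟨z1, _⟩ : BT y₀) = ⟨z1, _⟩
  congr 1
  induction c using Path.Homotopic.Quotient.ind with
  | mk q => exact trk_comm h h0 h1 q

/-- the homotopy along a simplex -/
def hs (h : C(Y × I, Y)) {n : ℕ} (s : CS y₀ n) : C(Dl n × I, Y) :=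
  ⟨fun p => h ((s.toFun p.1).1, p.2), h.continuous.comp
    ((s.cont.comp continuous_fst).prodMk continuous_snd)⟩

/-- the lift of the homotopy along a simplex -/
noncomputable def SS (h : C(Y × I, Y)) (h0 : ∀ y, h (y, 0) = y) (n : ℕ) (s : CS y₀ (n + 1)) :
    Leg y₀ (Dl (n + 1) × I) :=
  Leg.lift (hs h s) (stdSimplex.vertex 0, 0)
    ((s.toFun (stdSimplex.vertex 0)).2.cast rfl (h0 _))

theorem SS_zero (h : C(Y × I, Y)) (h0 : ∀ y, h (y, 0) = y) (n : ℕ) (s : CS y₀ (n + 1)) :
    (SS h h0 n s).comp ((ContinuousMap.id _).prodMk (ContinuousMap.const _ 0)) = s := by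
  refine Leg.eq_of_eq_at ?_ (stdSimplex.vertex 0) ?_
  · ext t
    exact h0 _
  · change (SS h h0 n s).toFun (stdSimplex.vertex 0, 0) = _
    rw [SS, Leg.lift_at, BT.ext_iff']
    refine ⟨h0 _, ?_⟩
    simp

theorem SS_zero' (h : C(Y × I, Y)) (h0 : ∀ y, h (y, 0) = y) (n : ℕ) (s : CS y₀ (n + 1))
    (t : Dl (n + 1)) : (SS h h0 n s).toFun (t, 0) = s.toFun t :=
  congrArg (fun r : CS y₀ (n + 1) => r.toFun t) (SS_zero h h0 n s)

/-- the vertical path -/
def vert {K : Type} [TopologicalSpace K] (t : K) : Path ((t, 0) : K × I) (t, 1) where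
  toFun r := (t, r)
  continuous_toFun := by fun_prop
  source' := rfl
  target' := rfl

theorem cvl : T_CVL := by
  intro Y _ y₀ h h0 h1
  refine ⟨SS h h0, SS_zero h h0, fun n s => ?_, fun n s i => ?_⟩
  · refine Leg.eq_of_eq_at ?_ (stdSimplex.vertex 0) ?_
    · ext t
      exact h1 _
    · change (SS h h0 n s).toFun (stdSimplex.vertex 0, 1) = _
      exact end_key h h0 h1 _ (s.toFun (stdSimplex.vertex 0)) _ _
        (SS_zero' h h0 n s (stdSimplex.vertex 0))
        ((SS h h0 n s).leg _ _ (vert (stdSimplex.vertex 0))) (fun t => rfl)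
  · refine Leg.eq_of_eq_at ?_ (stdSimplex.vertex 0, 0) ?_
    · rfl
    · change (SS h h0 (n + 1) s).toFun (cf i (stdSimplex.vertex 0), 0) =
        (SS h h0 n (cfc s i)).toFun (stdSimplex.vertex 0, 0)
      rw [SS_zero', SS_zero']
      rfl

end Pool.Agent.H89.FB
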