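import Pool.Agent.H64.FB.HU1
import Pool.Agent.H59.Push

/-! # Block F, module CVP: the prism operator on the universal cover -/

open Topology Set
open Pool.Agent.H59 Pool.Agent.H64.LB Pool.Agent.H93.FB Pool.Agent.H64.FB
open scoped unitInterval ContinuousMap Topology.Homotopy

namespace Pool.Agent.H89.FB

theorem linQ {α M : Type*} [AddCommGroup M] [Module ℚ M] {f g : (α →₀ ℚ) →ₗ[ℚ] M}
    (h : ∀ a, f (Finsupp.single a 1) = g (Finsupp.single a 1)) (x : α →₀ ℚ) : f x = g x := by
  have : f = g := Finsupp.lhom_ext' (fun a => LinearMap.ext_ring (h a))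
  rw [this]

section push

variable {Y : Type} [TopologicalSpace Y] {y₀ : Y} {K K' : Type} [TopologicalSpace K]
  [TopologicalSpace K']

/-- push a chain forward along a legal map -/
noncomputable def pushL (L : Leg y₀ K) (m : ℕ) : Ch ℚ m K →ₗ[ℚ] CC y₀ m :=
  Finsupp.lmapDomain ℚ ℚ (fun a => L.comp a)

theorem pushL_single (L : Leg y₀ K) (m : ℕ) (a : Smp m K) (r : ℚ) :
    pushL L m (Finsupp.single a r) = Finsupp.single (L.comp a) r := by
  simp [pushL, Finsupp.mapDomain_single]

theorem cbd_pushL (L : Leg y₀ K) (m : ℕ) (x : Ch ℚ (m + 1) K) :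
    cbd y₀ m (pushL L (m + 1) x) = pushL L m (bd ℚ m K x) :=
  altbd_mapDomain ℚ (fun s i => fc s i) (fun s i => cfc s i) (fun a => L.comp a)
    (fun a => L.comp a) (fun _ _ => rfl) x

theorem pushL_pf (L : Leg y₀ K) (ψ : C(K', K)) (m : ℕ) (x : Ch ℚ m K') :
    pushL L m (pf ℚ m ψ x) = pushL (L.comp ψ) m x := by
  refine linQ (f := (pushL L m).comp (pf ℚ m ψ)) (g := pushL (L.comp ψ) m) (fun v => ?_) x
  simp only [LinearMap.comp_apply, pf_single, pushL_single]
  rfl

end push

theorem red_pf {Y Z : Type} [TopologicalSpace Y] [TopologicalSpace Z] (n : ℕ) (f : C(Y, Z))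
    (x : Ch ℤ n Y) : red ℚ _ (pf ℤ n f x) = pf ℚ n f (red ℚ _ x) := by
  induction x using Finsupp.induction_linear with
  | zero => simp
  | add f g hf hg => rw [map_add, map_add, map_add, map_add, hf, hg]
  | single a r => rw [pf_single, red_single, red_single, pf_single]

/-- the prism over the identity -/
noncomputable def prm (n : ℕ) : Ch ℚ (n + 1) (Dl n × I) := red ℚ _ (prc n (ContinuousMap.id _))

theorem prc_pf (n : ℕ) {Y : Type} [TopologicalSpace Y] (h : C(Dl n × I, Y)) :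
    prc n h = pf ℤ (n + 1) h (prc n (ContinuousMap.id _)) := by
  rw [prc, prc, pf_push]
  rfl

theorem bd_prm (n : ℕ) : bd ℚ (n + 1) _ (prm (n + 1)) =
    Finsupp.single ((ContinuousMap.id _).prodMk (ContinuousMap.const _ 1)) 1 -
    Finsupp.single ((ContinuousMap.id _).prodMk (ContinuousMap.const _ 0)) 1 -
    ∑ i : Fin (n + 1), (-1 : ℚ) ^ (i : ℕ) • pf ℚ (n + 1)
      ((cf i).prodMap (ContinuousMap.id _)) (prm n) := by
  rw [prm, ← red_bd, bd_prc, map_sub, map_sub, red_single, red_single, map_sum,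
    ContinuousMap.id_comp, ContinuousMap.id_comp]
  have : ∀ i : Fin (n + 1), red ℚ _ ((-1 : ℤ) ^ (i : ℕ) •
      prc n ((ContinuousMap.id (Dl (n + 1) × I)).comp ((cf i).prodMap (ContinuousMap.id I)))) =
      (-1 : ℚ) ^ (i : ℕ) • pf ℚ (n + 1) ((cf i).prodMap (ContinuousMap.id _)) (prm n) := by
    intro i
    rw [red_zsmul, ContinuousMap.id_comp, prc_pf, red_pf, prm]
    simp
  rw [Finset.sum_congr rfl (fun i _ => this i)]
  simp

theorem prm_zero : prm 0 = 0 := by
  rw [prm, prc]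
  have : PL (K := Dl 0) 0 = 0 := rfl
  rw [this]
  simp

theorem cvp (hCVL : T_CVL) : T_CVP := by
  intro Y _ y₀ h h0 h1
  obtain ⟨S, hS0, hS1, hSf⟩ := hCVL Y y₀ h h0 h1
  let P : ∀ n, CC y₀ n →ₗ[ℚ] CC y₀ (n + 1) := fun n => match n with
    | 0 => 0
    | n + 1 => Finsupp.linearCombination ℚ (fun s => pushL (S n s) (n + 2) (prm (n + 1)))
  have hP : ∀ (n : ℕ) (s : CS y₀ (n + 1)) (r : ℚ), P (n + 1) (Finsupp.single s r) =
      r • pushL (S n s) (n + 2) (prm (n + 1)) := by
    intro n s r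
    exact Finsupp.linearCombination_single ℚ r s
  refine ⟨P, rfl, fun n x => ?_⟩
  refine linQ (f := (cbd y₀ (n + 1)).comp (P (n + 1)))
    (g := actC (Path.Homotopic.Quotient.mk (trk h h0 h1 y₀)) (n + 1) - LinearMap.id -
      (P n).comp (cbd y₀ n)) (fun s => ?_) x
  simp only [LinearMap.comp_apply, LinearMap.sub_apply, LinearMap.id_apply]
  rw [hP, one_smul, cbd_pushL, bd_prm, map_sub, map_sub, pushL_single, pushL_single, hS0, hS1,
    actC_single, cbd_single, one_smul, map_sum, map_sum]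
  congr 1
  refine Finset.sum_congr rfl (fun i _ => ?_)
  rw [map_smul, map_smul]
  congr 1
  cases n with
  | zero =>
    rw [prm_zero]
    simp [P]
  | succ n =>
    rw [hP, one_smul, pushL_pf, hSf]

end Pool.Agent.H89.FB
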